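import Pool.Agent.W935.SK.Stm3

/-!
LOWB: number of lattice points of a hyperplane in a box.
-/

set_option autoImplicit false

namespace Pool.Agent.W926.SK

open Polynomial Finset Pool.Agent.H884R2.Sko Pool.Agent.H692R2.USS Pool.Agent.W935.SK
open scoped Classical

/-- the point of the hyperplane with parameters `t` -/
noncomputable def pt {d : ℕ} (f : Fin d → ℤ) (j : Fin d) (t : {i : Fin d // i ≠ j} → ℤ) : Fin d → ℤ :=
  fun i => if h : i = j then -∑ k : {i : Fin d // i ≠ j}, f k * t k else f j * t ⟨i, h⟩

theorem pt_j {d : ℕ} (f : Fin d → ℤ) (j : Fin d) (t : {i : Fin d // i ≠ j} → ℤ) :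
    pt f j t j = -∑ k : {i : Fin d // i ≠ j}, f k * t k := by
  simp [pt]

theorem pt_ne {d : ℕ} (f : Fin d → ℤ) (j : Fin d) (t : {i : Fin d // i ≠ j} → ℤ)
    (k : {i : Fin d // i ≠ j}) : pt f j t k = f j * t k := by
  simp [pt, k.2]

theorem pt_sum {d : ℕ} (f : Fin d → ℤ) (j : Fin d) (t : {i : Fin d // i ≠ j} → ℤ) :
    ∑ i, f i * pt f j t i = 0 := by
  rw [Fintype.sum_eq_add_sum_subtype_ne _ j, pt_j]
  simp_rw [pt_ne]
  rw [mul_neg, Finset.mul_sum, neg_add_eq_zero]
  apply Finset.sum_congr rfl
  intro k _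
  ring

theorem lowb : S_LOWB := by
  intro d f hd
  by_cases hf : ∀ j, f j = 0
  · refine ⟨1, one_pos, 0, fun H _ => ?_⟩
    have h1 : (box (0 : Fin d → ℤ) H).filter (fun a => ∑ i, f i * a i = 0) = box (0 : Fin d → ℤ) H := by
      apply Finset.filter_true_of_mem
      intro a _
      simp [hf]
    rw [h1, card_box, one_mul]
    push_cast
    have hH : (0 : ℝ) ≤ H := Nat.cast_nonneg H
    calc (H : ℝ) ^ (d - 1) ≤ (2 * (H : ℝ) + 1) ^ (d - 1) := by
          apply pow_le_pow_left₀ hH
          linarith
      _ ≤ (2 * (H : ℝ) + 1) ^ d := by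
          apply pow_le_pow_right₀ (by linarith)
          omega
  · push Not at hf
    obtain ⟨j, hj⟩ := hf
    set S : ℕ := ∑ i, (f i).natAbs with hS
    have hFS : (f j).natAbs ≤ S := Finset.single_le_sum (f := fun i => (f i).natAbs)
      (fun _ _ => Nat.zero_le _) (Finset.mem_univ j)
    have hF1 : 1 ≤ (f j).natAbs := Int.natAbs_pos.2 hj
    have hS1 : 1 ≤ S := hF1.trans hFS
    have hSr : (0 : ℝ) < S := by exact_mod_cast hS1
    refine ⟨(1 / (S : ℝ)) ^ (d - 1), by positivity, 0, fun H _ => ?_⟩
    set K : ℕ := H / S with hK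
    have hKS : S * K ≤ H := Nat.mul_div_le H S
    let T : Finset ({i : Fin d // i ≠ j} → ℤ) := Fintype.piFinset fun _ => Finset.Icc (-(K : ℤ)) K
    have hT : T.card = (2 * K + 1) ^ (d - 1) := by
      rw [Fintype.card_piFinset, Finset.prod_const, Int.card_Icc]
      congr 1
      · omega
      · simp [Fintype.card_subtype_compl]
    have hbd : ∀ t ∈ T, ∀ k, |t k| ≤ (K : ℤ) := by
      intro t ht k
      rw [Fintype.mem_piFinset] at ht
      have := Finset.mem_Icc.1 (ht k)
      exact abs_le.2 this
    have hcard : T.card ≤ ((box (0 : Fin d → ℤ) H).filter (fun a => ∑ i, f i * a i = 0)).card := by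
      apply Finset.card_le_card_of_injOn (pt f j)
      · intro t ht
        have ht' : t ∈ T := ht
        rw [Finset.mem_coe, Finset.mem_filter, mem_box]
        refine ⟨fun i => ?_, pt_sum f j t⟩
        simp only [Pi.zero_apply, sub_zero]
        have hKH : (S : ℤ) * K ≤ H := by exact_mod_cast hKS
        by_cases hi : i = j
        · subst hi
          rw [pt_j, abs_neg]
          calc |∑ k : {l : Fin d // l ≠ i}, f k * t k| ≤ ∑ k : {l : Fin d // l ≠ i}, |f k * t k| :=
                Finset.abs_sum_le_sum_abs _ _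
            _ ≤ ∑ k : {l : Fin d // l ≠ i}, ((f k).natAbs : ℤ) * K := by
                apply Finset.sum_le_sum
                intro k _
                rw [abs_mul, Int.natCast_natAbs]
                exact mul_le_mul_of_nonneg_left (hbd t ht' k) (abs_nonneg _)
            _ = (∑ k : {l : Fin d // l ≠ i}, ((f k).natAbs : ℤ)) * K := by rw [Finset.sum_mul]
            _ ≤ (S : ℤ) * K := by
                apply mul_le_mul_of_nonneg_right _ (Nat.cast_nonneg K)
                have h2 : (S : ℤ) = ((f i).natAbs : ℤ) + ∑ k : {l : Fin d // l ≠ i}, ((f k).natAbs : ℤ) := by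
                  rw [hS]
                  push_cast
                  rw [Fintype.sum_eq_add_sum_subtype_ne _ i]
                rw [h2]
                have : (0 : ℤ) ≤ ((f i).natAbs : ℤ) := Nat.cast_nonneg _
                linarith
            _ ≤ H := hKH
        · have h3 := pt_ne f j t ⟨i, hi⟩
          have h4 : pt f j t i = f j * t ⟨i, hi⟩ := h3
          rw [h4, abs_mul]
          calc |f j| * |t ⟨i, hi⟩| ≤ (S : ℤ) * K := by
                apply mul_le_mul _ (hbd t ht' _) (abs_nonneg _) (Nat.cast_nonneg S)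
                rw [← Int.natCast_natAbs]
                exact_mod_cast hFS
            _ ≤ H := hKH
      · intro t _ t' _ h
        funext k
        have h5 := congrFun h k
        rw [pt_ne, pt_ne] at h5
        exact mul_left_cancel₀ hj h5
    have hlt : (H : ℝ) / S ≤ 2 * (K : ℝ) + 1 := by
      rw [div_le_iff₀ hSr]
      have h6 : H < S * (K + 1) := by
        rw [hK]
        exact Nat.lt_mul_div_succ H hS1
      have h7 : (H : ℝ) ≤ (S : ℝ) * (K + 1) := by exact_mod_cast h6.le
      have h8 : (0 : ℝ) ≤ (S : ℝ) * K := by positivity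
      nlinarith
    calc (1 / (S : ℝ)) ^ (d - 1) * (H : ℝ) ^ (d - 1) = ((H : ℝ) / S) ^ (d - 1) := by
          rw [← mul_pow]
          congr 1
          ring
      _ ≤ (2 * (K : ℝ) + 1) ^ (d - 1) := by
          apply pow_le_pow_left₀ (by positivity) hlt
      _ = ((T.card : ℕ) : ℝ) := by
          rw [hT]
          push_cast
          rfl
      _ ≤ _ := by exact_mod_cast hcard

end Pool.Agent.W926.SK
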